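import Pool.Agent.helper84.NR.SpecW

/-! MP_133bfc_co, project NRW (helper84), row GEW. -/

set_option autoImplicit false

namespace Pool.Agent.helper84.NR

open scoped Classical
open Finset

theorem GEW_of_path {V F : Type} {M : Cyc V F} {x y : V} (h : NRPath M x y) : NRXY M x y := by
  obtain ⟨n, q, h0, h1, h2, h3, h4⟩ := h
  exact ⟨n, q, h0, h1, h2, h3, fun f _ i j hi hj h5 h6 k hk hk' => h4 f i j hi hj h5 h6 k hk hk'⟩

theorem GEW_mem {V F : Type} [Fintype V] [Fintype F] (M : PMap V F) (x y : V) (p : F × F) :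
    p ∈ MPs M x y ↔ OnV M.toCyc p.1 x ∧ OnV M.toCyc p.2 y ∧
      ∃ v, OnV M.toCyc p.1 v ∧ OnV M.toCyc p.2 v := by
  unfold MPs
  rw [mem_filter]
  exact ⟨fun h => h.2, fun h => ⟨mem_univ _, h⟩⟩

theorem GEW_ex {V F : Type} (M : PMap V F) {x y : V} {A B : F} (h : ex M x y A B) :
    ∃ v, OnV M.toCyc A v ∧ OnV M.toCyc B v := by
  obtain ⟨i, _, h2, _⟩ := h
  exact ⟨ww M x A i, ⟨st M x A + i, rfl⟩, h2⟩

theorem GEW (hBIP : BIP_stmt) (hEXX : EXX_stmt) (hRT : RT_stmt) (hRT0 : RT0_stmt) :
    GEW_stmt := by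
  intro V F _ _ M x y hN
  have hne : ∀ f, ¬ (OnV M.toCyc f x ∧ OnV M.toCyc f y) :=
    fun f h => hN (GEW_of_path (h_PCF V F M x y f h.1 h.2))
  have hne' : ∀ f, ¬ (OnV M.toCyc f y ∧ OnV M.toCyc f x) := fun f h => hne f ⟨h.2, h.1⟩
  have hPne : (MPs M x y).Nonempty := by
    by_contra h
    apply hN
    apply hRT0 V F M x y hne
    intro v A B h1 h2 h3 h4
    exact h ⟨(A, B), (GEW_mem M x y (A, B)).2 ⟨h1, h3, v, h2, h4⟩⟩
  have key := hBIP F (MPs M x y) ((MPs M x y).filter fun p => ex M x y p.1 p.2)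
    ((MPs M x y).filter fun p => ex M y x p.2 p.1) (filter_subset _ _) (filter_subset _ _) ?_ hPne ?_ ?_
  · have e1 : XM M x y ⊆ (MPs M x y).image Prod.fst := by
      intro A hA
      unfold XM at hA
      obtain ⟨_, h1, B, h2, v, h3, h4⟩ := mem_filter.1 hA
      exact mem_image.2 ⟨(A, B), (GEW_mem M x y (A, B)).2 ⟨h1, h2, v, h3, h4⟩, rfl⟩
    have e2 : XM M y x ⊆ (MPs M x y).image Prod.snd := by
      intro B hB
      unfold XM at hB
      obtain ⟨_, h1, A, h2, v, h3, h4⟩ := mem_filter.1 hB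
      exact mem_image.2 ⟨(A, B), (GEW_mem M x y (A, B)).2 ⟨h2, h1, v, h4, h3⟩, rfl⟩
    have c1 := card_le_card e1
    have c2 := card_le_card e2
    omega
  · rw [disjoint_left]
    intro p h1 h2
    obtain ⟨h3, h4⟩ := mem_filter.1 h1
    obtain ⟨_, h5⟩ := mem_filter.1 h2
    obtain ⟨h6, h7, _⟩ := (GEW_mem M x y p).1 h3
    exact hN (hRT V F M x y p.1 p.2 hne h6 h7 h4 h5)
  · intro A
    by_cases hA : OnV M.toCyc A x
    · have h1 := hEXX V F M x y A hne hA
      have h2 : ((MPs M x y).filter fun p => p.1 = A).card ≤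
          (univ.filter (fun B => OnV M.toCyc B y ∧ ∃ v, OnV M.toCyc A v ∧ OnV M.toCyc B v)).card := by
        apply card_le_card_of_injOn Prod.snd
        · intro p hp
          obtain ⟨hp1, hp2⟩ := mem_filter.1 (mem_coe.1 hp)
          obtain ⟨_, h4, v, h5, h6⟩ := (GEW_mem M x y p).1 hp1
          rw [hp2] at h5
          exact mem_coe.2 (mem_filter.2 ⟨mem_univ _, h4, v, h5, h6⟩)
        · intro p hp p' hp' h
          have hp2 := (mem_filter.1 (mem_coe.1 hp)).2
          have hp2' := (mem_filter.1 (mem_coe.1 hp')).2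
          exact Prod.ext (hp2.trans hp2'.symm) h
      have h3 : (univ.filter (fun B => OnV M.toCyc B y ∧ ex M x y A B)).card ≤
          (((MPs M x y).filter fun p => ex M x y p.1 p.2).filter fun p => p.1 = A).card := by
        apply card_le_card_of_injOn (fun B => (A, B))
        · intro B hB
          obtain ⟨_, h4, h5⟩ := mem_filter.1 (mem_coe.1 hB)
          refine mem_coe.2 (mem_filter.2 ⟨mem_filter.2 ⟨?_, h5⟩, rfl⟩)
          exact (GEW_mem M x y (A, B)).2 ⟨hA, h4, GEW_ex M h5⟩
        · intro B _ B' _ h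
          exact (Prod.mk.inj h).2
      omega
    · have h2 : ((MPs M x y).filter fun p => p.1 = A).card = 0 := by
        rw [card_eq_zero]
        apply filter_eq_empty_iff.2
        intro p hp h
        have h3 := ((GEW_mem M x y p).1 hp).1
        rw [h] at h3
        exact hA h3
      rw [h2]
      exact (min_le_right _ _).trans (Nat.zero_le _)
  · intro B
    by_cases hB : OnV M.toCyc B y
    · have h1 := hEXX V F M y x B hne' hB
      have h2 : ((MPs M x y).filter fun p => p.2 = B).card ≤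
          (univ.filter (fun A => OnV M.toCyc A x ∧ ∃ v, OnV M.toCyc B v ∧ OnV M.toCyc A v)).card := by
        apply card_le_card_of_injOn Prod.fst
        · intro p hp
          obtain ⟨hp1, hp2⟩ := mem_filter.1 (mem_coe.1 hp)
          obtain ⟨h4, _, v, h5, h6⟩ := (GEW_mem M x y p).1 hp1
          rw [hp2] at h6
          exact mem_coe.2 (mem_filter.2 ⟨mem_univ _, h4, v, h6, h5⟩)
        · intro p hp p' hp' h
          have hp2 := (mem_filter.1 (mem_coe.1 hp)).2
          have hp2' := (mem_filter.1 (mem_coe.1 hp')).2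
          exact Prod.ext h (hp2.trans hp2'.symm)
      have h3 : (univ.filter (fun A => OnV M.toCyc A x ∧ ex M y x B A)).card ≤
          (((MPs M x y).filter fun p => ex M y x p.2 p.1).filter fun p => p.2 = B).card := by
        apply card_le_card_of_injOn (fun A => (A, B))
        · intro A hA
          obtain ⟨_, h4, h5⟩ := mem_filter.1 (mem_coe.1 hA)
          refine mem_coe.2 (mem_filter.2 ⟨mem_filter.2 ⟨?_, h5⟩, rfl⟩)
          obtain ⟨v, h6, h7⟩ := GEW_ex M h5
          exact (GEW_mem M x y (A, B)).2 ⟨h4, hB, v, h7, h6⟩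
        · intro A _ A' _ h
          exact (Prod.mk.inj h).1
      omega
    · have h2 : ((MPs M x y).filter fun p => p.2 = B).card = 0 := by
        rw [card_eq_zero]
        apply filter_eq_empty_iff.2
        intro p hp h
        have h3 := ((GEW_mem M x y p).1 hp).2.1
        rw [h] at h3
        exact hB h3
      rw [h2]
      exact (min_le_right _ _).trans (Nat.zero_le _)

end Pool.Agent.helper84.NR
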